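import Mathlib

namespace Pool.Agent.H.MP_d886ff_an

open Complex MeasureTheory Set

noncomputable def s (y : ℝ) : ℝ := if Int.fract y ∈ Ico (1 / 3 : ℝ) (2 / 3) then 0 else 1

lemma s_meas : Measurable s :=
  Measurable.ite (measurable_fract measurableSet_Ico) measurable_const measurable_const

lemma s_abs (y : ℝ) : |s y| ≤ 1 := by unfold s; split_ifs <;> simp

lemma s_int (y : ℝ) (n : ℤ) : s (y + n) = s y := by simp [s]

noncomputable def Φ (θ : ℕ → ℝ) (x : ℝ) : ℝ := ∑' m, θ m * s (3 ^ m * x)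

def Bd (a : ℝ) (θ : ℕ → ℝ) : Prop := ∀ m, |θ m| ≤ a / 2 ^ m

lemma Bd.shift {a : ℝ} {θ : ℕ → ℝ} (h : Bd a θ) : Bd (a / 2) fun m => θ (m + 1) := by
  intro m
  have := h (m + 1)
  rwa [pow_succ, mul_comm, ← div_div] at this

lemma geo (a : ℝ) : HasSum (fun m : ℕ => a / 2 ^ m) (2 * a) := by
  have := hasSum_geometric_two.mul_left a
  have e : (fun m : ℕ => a / 2 ^ m) = fun m : ℕ => a * (1 / 2) ^ m := by
    ext m; rw [one_div, inv_pow, div_eq_mul_inv]
  rw [e, mul_comm 2 a]; exact this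

lemma Bd.term {a : ℝ} {θ : ℕ → ℝ} (h : Bd a θ) (x : ℝ) (m : ℕ) :
    ‖θ m * s (3 ^ m * x)‖ ≤ a / 2 ^ m := by
  rw [Real.norm_eq_abs, abs_mul]
  exact (mul_le_of_le_one_right (abs_nonneg _) (s_abs _)).trans (h m)

lemma Bd.summ {a : ℝ} {θ : ℕ → ℝ} (h : Bd a θ) (x : ℝ) :
    Summable fun m => θ m * s (3 ^ m * x) :=
  Summable.of_norm_bounded (geo a).summable (h.term x)

lemma Bd.abs_le {a : ℝ} {θ : ℕ → ℝ} (h : Bd a θ) (x : ℝ) : |Φ θ x| ≤ 2 * a :=
  tsum_of_norm_bounded (geo a) (h.term x)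

lemma Φ_meas (θ : ℕ → ℝ) : Measurable (Φ θ) := by
  unfold Φ
  apply Measurable.tsum
  intro m
  exact measurable_const.mul (s_meas.comp (by fun_prop))

lemma Φ_int (θ : ℕ → ℝ) (x : ℝ) (n : ℤ) : Φ θ (x + n) = Φ θ x := by
  unfold Φ
  congr 1; ext m
  have : (3 : ℝ) ^ m * (x + n) = 3 ^ m * x + ((3 ^ m * n : ℤ) : ℝ) := by push_cast; ring
  rw [this, s_int]

lemma Bd.rec {a : ℝ} {θ : ℕ → ℝ} (h : Bd a θ) (x : ℝ) :
    Φ θ x = θ 0 * s x + Φ (fun m => θ (m + 1)) (3 * x) := by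
  unfold Φ
  rw [(h.summ x).tsum_eq_zero_add]
  simp only [pow_zero, one_mul]
  congr 1
  congr 1; ext m
  congr 2; ring

lemma Bd.sub {a : ℝ} {θ θ' : ℕ → ℝ} (h : Bd a θ) (h' : Bd a θ') (x : ℝ) :
    Φ (θ - θ') x = Φ θ x - Φ θ' x := by
  unfold Φ
  rw [← (h.summ x).tsum_sub (h'.summ x)]
  congr 1; ext m; simp [sub_mul]

noncomputable def E (θ : ℕ → ℝ) (ξ x : ℝ) : ℂ := cexp (-I * ξ * x) * cexp (I * Φ θ x)

lemma E_norm (θ : ℕ → ℝ) (ξ x : ℝ) : ‖E θ ξ x‖ = 1 := by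
  unfold E
  have h1 : -I * ξ * x = ((-(ξ * x) : ℝ) : ℂ) * I := by push_cast; ring
  rw [norm_mul, h1, norm_exp_ofReal_mul_I, mul_comm I, norm_exp_ofReal_mul_I, one_mul]

lemma E_meas (θ : ℕ → ℝ) (ξ : ℝ) : Measurable (E θ ξ) := by
  unfold E
  have := Φ_meas θ
  fun_prop

lemma E_int (θ : ℕ → ℝ) (ξ a b : ℝ) : IntervalIntegrable (E θ ξ) volume a b := by
  refine (intervalIntegrable_const (c := (1 : ℝ))).mono_fun' (E_meas θ ξ).aestronglyMeasurable ?_
  exact Filter.Eventually.of_forall fun x => (E_norm θ ξ x).le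

noncomputable def G (θ : ℕ → ℝ) (ξ : ℝ) : ℂ := ∫ x in (0 : ℝ)..1, E θ ξ x

lemma G_le (θ : ℕ → ℝ) (ξ : ℝ) : ‖G θ ξ‖ ≤ 1 := by
  simpa [G] using intervalIntegral.norm_integral_le_of_norm_le_const (a := 0) (b := 1) (C := 1)
    (f := E θ ξ) fun x _ => (E_norm θ ξ x).le

lemma piece {a : ℝ} {θ : ℕ → ℝ} (h : Bd a θ) (ξ : ℝ) (j : ℤ) (c : ℝ)
    (hc : ∀ x ∈ Ioo ((j : ℝ) / 3) ((j + 1) / 3), s x = c) :
    ∫ x in ((j : ℝ) / 3)..((j + 1) / 3), E θ ξ x =
      (1 / 3) * cexp (I * (θ 0 * c : ℝ)) * cexp (-I * (ξ / 3 : ℝ)) ^ j *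
        G (fun m => θ (m + 1)) (ξ / 3) := by
  have h1 : ∫ x in ((j : ℝ) / 3)..((j + 1) / 3), E θ ξ x =
      ∫ x in ((j : ℝ) / 3)..((j + 1) / 3), (cexp (I * (θ 0 * c : ℝ)) *
        cexp (-I * (ξ / 3 : ℝ)) ^ j) * E (fun m => θ (m + 1)) (ξ / 3) (3 * x - j) := by
    rw [intervalIntegral.integral_of_le (by linarith), intervalIntegral.integral_of_le (by linarith),
      integral_Ioc_eq_integral_Ioo, integral_Ioc_eq_integral_Ioo]
    refine setIntegral_congr_fun measurableSet_Ioo fun x hx => ?_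
    have e : Φ (fun m => θ (m + 1)) (3 * x - j) = Φ (fun m => θ (m + 1)) (3 * x) := by
      have := Φ_int (fun m => θ (m + 1)) (3 * x) (-j)
      rw [← this]; congr 1; push_cast; ring
    simp only [E]
    rw [h.rec x, hc x hx, e, ← Complex.exp_int_mul]
    simp only [← Complex.exp_add]
    congr 1; push_cast; ring
  rw [h1, intervalIntegral.integral_const_mul,
    intervalIntegral.integral_comp_mul_sub (E (fun m => θ (m + 1)) (ξ / 3)) (by norm_num)]
  have e1 : 3 * ((j : ℝ) / 3) - j = 0 := by ring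
  have e2 : 3 * (((j : ℝ) + 1) / 3) - j = 1 := by ring
  rw [e1, e2]
  simp only [G, real_smul]
  push_cast; ring

lemma G_rec {a : ℝ} {θ : ℕ → ℝ} (h : Bd a θ) (ξ : ℝ) :
    G θ ξ = (cexp (-I * (ξ / 3 : ℝ)) * ((cexp (I * θ 0) * (2 * Real.cos (ξ / 3) : ℝ) + 1) / 3)) *
      G (fun m => θ (m + 1)) (ξ / 3) := by
  have p0 := piece h ξ 0 1 (fun x hx => by
    have h1 := hx.1; have h2 := hx.2
    push_cast at h1 h2
    unfold s
    rw [Int.fract_eq_self.2 ⟨by linarith, by linarith⟩, if_neg]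
    intro h; linarith [h.1])
  have p1 := piece h ξ 1 0 (fun x hx => by
    have h1 := hx.1; have h2 := hx.2
    push_cast at h1 h2
    unfold s
    rw [Int.fract_eq_self.2 ⟨by linarith, by linarith⟩, if_pos]
    exact ⟨by linarith, by linarith⟩)
  have p2 := piece h ξ 2 1 (fun x hx => by
    have h1 := hx.1; have h2 := hx.2
    push_cast at h1 h2
    unfold s
    rw [Int.fract_eq_self.2 ⟨by linarith, by linarith⟩, if_neg]
    intro h; linarith [h.2])
  have a1 := intervalIntegral.integral_add_adjacent_intervals (E_int θ ξ 0 (1 / 3))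
    (E_int θ ξ (1 / 3) (2 / 3))
  have a2 := intervalIntegral.integral_add_adjacent_intervals (E_int θ ξ 0 (2 / 3))
    (E_int θ ξ (2 / 3) 1)
  norm_num at p0 p1 p2
  have hG : G θ ξ = ∫ x in (0 : ℝ)..1, E θ ξ x := rfl
  rw [hG, ← a2, ← a1, p0, p1, p2]
  have hc : (2 * Complex.cos (ξ / 3)) * cexp (-(I * (ξ / 3))) = 1 + cexp (-(I * (ξ / 3))) ^ 2 := by
    rw [Complex.two_cos, add_mul, ← Complex.exp_add, ← Complex.exp_add, sq, ← Complex.exp_add]
    congr 1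
    · rw [← Complex.exp_zero]; congr 1; ring
    · congr 1; ring
  push_cast
  simp only [neg_mul]
  linear_combination (-(1 / 3) * cexp (I * θ 0) * G (fun m => θ (m + 1)) (ξ / 3)) * hc

lemma fac_norm (t r ξ : ℝ) :
    ‖cexp (-I * (ξ : ℝ)) * ((cexp (I * t) * (r : ℝ) + 1) / 3)‖ =
      Real.sqrt (r ^ 2 + 2 * r * Real.cos t + 1) / 3 := by
  have h1 : -I * (ξ : ℂ) = ((-ξ : ℝ) : ℂ) * I := by push_cast; ring
  rw [norm_mul, h1, norm_exp_ofReal_mul_I, one_mul, norm_div]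
  congr 1
  · rw [Complex.norm_eq_sqrt_sq_add_sq]
    congr 1
    rw [mul_comm I]
    simp [exp_ofReal_mul_I_re, exp_ofReal_mul_I_im]
    nlinarith [Real.sin_sq_add_cos_sq t]
  · simp

lemma fac_le (t r : ℝ) (hr : |r| ≤ 2) : Real.sqrt (r ^ 2 + 2 * r * Real.cos t + 1) / 3 ≤ 1 := by
  rw [div_le_one (by norm_num), Real.sqrt_le_iff]
  refine ⟨by norm_num, ?_⟩
  have h1 := abs_le.1 hr
  have h2 := Real.cos_le_one t
  have h3 := Real.neg_one_le_cos t
  nlinarith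

lemma exp_sub_le (u v : ℝ) : ‖cexp (I * u) - cexp (I * v)‖ ≤ |u - v| := by
  have : cexp (I * u) - cexp (I * v) = cexp (I * v) * (cexp (I * (u - v : ℝ)) - 1) := by
    rw [mul_sub, ← Complex.exp_add]; push_cast; ring_nf
  rw [this, norm_mul, mul_comm I (v : ℂ), norm_exp_ofReal_mul_I, one_mul]
  exact Real.norm_exp_I_mul_ofReal_sub_one_le

lemma G_close (K : ℕ) : ∀ (a : ℝ) (θ θ' : ℕ → ℝ) (ξ : ℝ), Bd a θ → (∀ m, |θ m| = |θ' m|) →
    |‖G θ ξ‖ - ‖G θ' ξ‖| ≤ 4 * a / 2 ^ K := by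
  induction K with
  | zero =>
    intro a θ θ' ξ h he
    have h' : Bd a θ' := fun m => he m ▸ h m
    refine (abs_norm_sub_norm_le _ _).trans ?_
    unfold G
    rw [← intervalIntegral.integral_sub (E_int _ _ _ _) (E_int _ _ _ _)]
    have := intervalIntegral.norm_integral_le_of_norm_le_const (a := 0) (b := 1) (C := 4 * a)
      (f := fun x => E θ ξ x - E θ' ξ x) fun x _ => by
        unfold E
        have h1 : -I * ξ * x = ((-(ξ * x) : ℝ) : ℂ) * I := by push_cast; ring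
        rw [← mul_sub, norm_mul, h1, norm_exp_ofReal_mul_I, one_mul]
        refine (exp_sub_le _ _).trans ((abs_sub _ _).trans ?_)
        linarith [h.abs_le x, h'.abs_le x]
    simpa using this
  | succ K ih =>
    intro a θ θ' ξ h he
    have h' : Bd a θ' := fun m => he m ▸ h m
    have hcos : Real.cos (θ 0) = Real.cos (θ' 0) := by
      rw [← Real.cos_abs, he 0, Real.cos_abs]
    rw [G_rec h, G_rec h', norm_mul, fac_norm, norm_mul, fac_norm, hcos, ← mul_sub, abs_mul,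
      abs_of_nonneg (by positivity)]
    have h1 := ih (a / 2) _ (fun m => θ' (m + 1)) (ξ / 3) h.shift fun m => he (m + 1)
    have h2 := fac_le (θ' 0) (2 * Real.cos (ξ / 3)) (by
      rw [abs_mul, abs_two]; linarith [Real.abs_cos_le_one (ξ / 3)])
    calc _ ≤ 1 * (4 * (a / 2) / 2 ^ K) := mul_le_mul h2 h1 (abs_nonneg _) zero_le_one
      _ = _ := by rw [pow_succ]; ring

lemma G_eq {a : ℝ} {θ θ' : ℕ → ℝ} (ξ : ℝ) (h : Bd a θ) (he : ∀ m, |θ m| = |θ' m|) :
    ‖G θ ξ‖ = ‖G θ' ξ‖ := by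
  have := ge_of_tendsto' (geo (4 * a)).summable.tendsto_atTop_zero
    fun K => G_close K a θ θ' ξ h he
  have h2 := abs_nonneg (‖G θ ξ‖ - ‖G θ' ξ‖)
  have h3 : |‖G θ ξ‖ - ‖G θ' ξ‖| = 0 := le_antisymm this h2
  linarith [abs_eq_zero.1 h3]

lemma G_lt (m : ℕ) : ∀ (a : ℝ) (δ : ℕ → ℝ), Bd a δ → Real.cos (δ m) ≠ 1 → ‖G δ 0‖ < 1 := by
  induction m with
  | zero =>
    intro a δ h hc
    rw [G_rec h, norm_mul, fac_norm]
    have h1 : Real.cos (δ 0) < 1 := lt_of_le_of_ne (Real.cos_le_one _) hc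
    have h2 : Real.sqrt ((2 * Real.cos (0 / 3)) ^ 2 + 2 * (2 * Real.cos (0 / 3)) *
        Real.cos (δ 0) + 1) / 3 < 1 := by
      rw [div_lt_one (by norm_num), Real.sqrt_lt' (by norm_num)]
      simp; linarith
    calc _ ≤ _ * 1 := mul_le_mul_of_nonneg_left (G_le _ _) (by positivity)
      _ < 1 := by rwa [mul_one]
  | succ m ih =>
    intro a δ h hc
    rw [G_rec h, norm_mul, fac_norm]
    have h1 := ih (a / 2) _ h.shift hc
    have h2 := fac_le (δ 0) (2 * Real.cos (0 / 3)) (by simp)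
    rw [zero_div] at h2 ⊢
    calc _ ≤ 1 * ‖G (fun m => δ (m + 1)) 0‖ := mul_le_mul_of_nonneg_right h2 (norm_nonneg _)
      _ < 1 := by rwa [one_mul]

noncomputable def F (θ : ℕ → ℝ) : ℝ → ℂ := (Ioc (0 : ℝ) 1).indicator fun x => cexp (I * Φ θ x)

lemma F_mem (θ : ℕ → ℝ) : MemLp (F θ) 2 volume := by
  unfold F
  rw [memLp_indicator_iff_restrict measurableSet_Ioc]
  refine MemLp.of_bound (C := 1) ?_ (Filter.Eventually.of_forall fun x => ?_)
  · have := Φ_meas θ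
    exact Measurable.aestronglyMeasurable (by fun_prop)
  · rw [mul_comm, norm_exp_ofReal_mul_I]

lemma F_ft (θ : ℕ → ℝ) (ξ : ℝ) : ∫ y : ℝ, cexp (-I * ξ * y) * F θ y = G θ ξ := by
  unfold G
  rw [intervalIntegral.integral_of_le zero_le_one, ← integral_indicator measurableSet_Ioc]
  congr 1; ext y
  unfold F E
  by_cases hy : y ∈ Ioc (0 : ℝ) 1 <;> simp [hy]

lemma F_norm (θ θ' : ℕ → ℝ) (x : ℝ) : ‖F θ x‖ = ‖F θ' x‖ := by
  unfold F
  by_cases hy : x ∈ Ioc (0 : ℝ) 1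
  · simp only [indicator_of_mem hy, mul_comm I, norm_exp_ofReal_mul_I]
  · simp [hy]

lemma F_rel {a : ℝ} {θ θ' : ℕ → ℝ} (h : Bd a θ) (h' : Bd a θ') (α β : ℂ)
    (hz : ∀ᵐ x, α * F θ x + β * F θ' x = 0) : α * G (θ - θ') 0 + β = 0 := by
  have h1 : ∫ x in (0 : ℝ)..1, (α * E (θ - θ') 0 x + β) = 0 := by
    rw [intervalIntegral.integral_congr_ae (g := fun _ => 0)]
    · simp
    · filter_upwards [hz] with x hx hx'
      rw [uIoc_of_le zero_le_one] at hx'
      simp only [F, indicator_of_mem hx'] at hx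
      have e : E (θ - θ') 0 x * cexp (I * Φ θ' x) = cexp (I * Φ θ x) := by
        unfold E
        rw [h.sub h', ← Complex.exp_add, ← Complex.exp_add]; congr 1; push_cast; ring
      apply mul_right_cancel₀ (Complex.exp_ne_zero (I * Φ θ' x))
      linear_combination hx + α * e
  rw [intervalIntegral.integral_add ((E_int _ _ _ _).const_mul _) intervalIntegrable_const,
    intervalIntegral.integral_const_mul] at h1
  simpa [G] using h1

lemma F_indep {a : ℝ} {θ θ' : ℕ → ℝ} (h : Bd a θ) (h' : Bd a θ') (m : ℕ)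
    (hc : Real.cos (θ m - θ' m) ≠ 1) (α β : ℂ)
    (hz : ∀ᵐ x, α * F θ x + β * F θ' x = 0) : α = 0 ∧ β = 0 := by
  have h1 := F_rel h h' α β hz
  have h2 := F_rel h' h β α (by filter_upwards [hz] with x hx; linear_combination hx)
  have hb : Bd (2 * a) (θ - θ') := fun k => by
    have := abs_sub (θ k) (θ' k)
    have e : 2 * a / 2 ^ k = a / 2 ^ k + a / 2 ^ k := by ring
    rw [e]; exact this.trans (add_le_add (h k) (h' k))
  have h3 := G_lt m _ _ hb hc
  have h4 := G_le (θ' - θ) 0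
  have e1 : ‖β‖ = ‖α‖ * ‖G (θ - θ') 0‖ := by
    rw [← norm_mul, ← norm_neg β]; congr 1; linear_combination -h1
  have e2 : ‖α‖ = ‖β‖ * ‖G (θ' - θ) 0‖ := by
    rw [← norm_mul, ← norm_neg α]; congr 1; linear_combination -h2
  have e3 : ‖α‖ ≤ ‖β‖ := by rw [e2]; exact mul_le_of_le_one_right (norm_nonneg _) h4
  have e4 : ‖α‖ = 0 := by
    by_contra hne
    have : 0 < ‖α‖ := lt_of_le_of_ne (norm_nonneg _) (Ne.symm hne)
    nlinarith
  have hα := norm_eq_zero.1 e4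
  refine ⟨hα, ?_⟩
  simpa [hα] using h1

lemma F_dist {a : ℝ} {θ θ' : ℕ → ℝ} (h : Bd a θ) (h' : Bd a θ') (k : ℕ)
    (hk : ∀ m, m ≠ k → θ m = θ' m) :
    ‖(F_mem θ).toLp _ - (F_mem θ').toLp _‖ ≤ 2 * (a / 2 ^ k) := by
  have ha : 0 ≤ a / 2 ^ k := (abs_nonneg _).trans (h k)
  have hpt : ∀ x, ‖F θ x - F θ' x‖ ≤
      ‖(Ioc (0 : ℝ) 1).indicator (fun _ => 2 * (a / 2 ^ k)) x‖ := by
    intro x
    unfold F
    by_cases hy : x ∈ Ioc (0 : ℝ) 1
    · simp only [indicator_of_mem hy]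
      refine (exp_sub_le _ _).trans ?_
      rw [← h.sub h', Real.norm_eq_abs, abs_of_nonneg (by positivity : 0 ≤ 2 * (a / 2 ^ k))]
      unfold Φ
      rw [tsum_eq_single k fun m hm => by simp [hk m hm], abs_mul]
      refine (mul_le_of_le_one_right (abs_nonneg _) (s_abs _)).trans ?_
      have := abs_sub (θ k) (θ' k)
      have h1 := h k
      have h2 := h' k
      simp only [Pi.sub_apply]
      linarith
    · simp [hy]
  have := Lp.norm_le_norm_of_ae_le (f := (F_mem θ).toLp _ - (F_mem θ').toLp _)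
    (g := indicatorConstLp 2 (measurableSet_Ioc (a := (0 : ℝ)) (b := 1)) (by simp)
      (2 * (a / 2 ^ k))) (by
      filter_upwards [Lp.coeFn_sub ((F_mem θ).toLp _) ((F_mem θ').toLp _), (F_mem θ).coeFn_toLp,
        (F_mem θ').coeFn_toLp, indicatorConstLp_coeFn (p := 2)
          (hs := measurableSet_Ioc (a := (0 : ℝ)) (b := 1)) (hμs := by simp)
          (c := 2 * (a / 2 ^ k))] with x h1 h2 h3 h4
      rw [h1, Pi.sub_apply, h2, h3, h4]
      exact hpt x)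
  refine this.trans ?_
  rw [norm_indicatorConstLp (by norm_num) (by norm_num)]
  rw [Real.norm_eq_abs, abs_of_nonneg (by positivity : 0 ≤ 2 * (a / 2 ^ k))]
  simp [Measure.real]

end Pool.Agent.H.MP_d886ff_an
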